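import Pool.Agent.helper81.UH.Spec

/-! Row FIN of project UH. -/

set_option autoImplicit false

namespace Pool.Agent.UH

open Matrix Pool.Agent.H48SL Pool.Agent.UG

theorem FIN_anil {n N : ℕ} {A : Subgroup (SLZ n)} {𝔞 : Submodule ℚ (MQ n)} (h : LA A 𝔞 N) : ANil 𝔞 :=
  ⟨N, fun l hl hlen => h.nn l hl hlen⟩

theorem FIN_lat {n N : ℕ} {A H : Subgroup (SLZ n)} {𝔞 : Submodule ℚ (MQ n)} (h : LA A 𝔞 N)
    (hAH : A ≤ H) : Lat H 𝔞 := by
  intro X hX
  obtain ⟨k, hk, a, ha, e⟩ := h.lat X hX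
  exact ⟨k, hk, a, hAH ha, e⟩

theorem FIN (hZDH : ZDH_stmt) (hFIL : FIL_stmt) (hSTC : STC_stmt) (hELA : ELA_stmt) : FIN_stmt := by
  intro n N A H 𝔞 hn hZ hLA hAH hdim
  by_cases hS : Pool.Agent.UG.Star 𝔞
  · exact tG0 (n + 1) (by omega) H hZ 𝔞 (FIN_anil hLA) (FIN_lat hLA hAH) hS
  · obtain ⟨A', H', 𝔞', X, f, hfi, hZ', hD, hf, hAH', hfr⟩ :=
      hSTC n N A H 𝔞 (by omega) hZ hLA hAH hS hdim
    apply hfi
    by_cases hd : ∃ Z ∈ 𝔞', Z ≠ 0 ∧ dn Z = 0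
    · exact hELA n N A' H' 𝔞' hn hZ' hD.la hAH' hD.e0 (by rw [hfr]; exact hn) hd
    · have hinj : Function.Injective ((dnL n).domRestrict 𝔞') := by
        rw [← LinearMap.ker_eq_bot, LinearMap.ker_eq_bot']
        intro Z hZ0
        by_contra hne
        exact hd ⟨Z.1, Z.2, fun h => hne (Subtype.ext h), hZ0⟩
      have hST := STQ EXD n H' 𝔞' hD.e0 (FIN_anil hD.la) (FIN_lat hD.la hAH')
      have hfr' : Module.finrank ℚ (𝔞'.map (dnL n)) = n := by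
        rw [← LinearMap.range_domRestrict, LinearMap.finrank_range_of_inj hinj, hfr]
      have hStar : Pool.Agent.UG.Star (𝔞'.map (dnL n)) := DIM n (by omega) _ hST.1 hfr'.ge
      by_cases h2 : n = 2
      · subst h2
        exact absurd hStar (N2 COM _ hST.1)
      · have h3 : 3 ≤ n := by omega
        have hZH := hZDH n N A' H' 𝔞' X f h3 hZ' hD hf hAH'
        exact hFIL n h3 H' hZ' (tG0 n h3 (Hb H') hZH _ hST.1 hST.2 hStar)

end Pool.Agent.UH
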